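import Pool.Agent.Helper5.HG.G3
import Pool.Agent.Helper13.HG2.Defs

/-!
# HG2, block G3P: the weights, with one rational root
-/

set_option autoImplicit false

namespace Pool.Agent.HG

open Polynomial NumberField IsDedekindDomain
open scoped Pointwise IntermediateField

namespace Ctx

variable {k L : Type} [Field k] [NumberField k] [Field L] [NumberField L] [Algebra k L]
  [IsGalois k L] {f : k[X]} (X : Ctx k L f)

theorem mem_cls22 {θ : L} (h : θ ∈ X.Ω) : minpoly k θ ∈ X.cls := by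
  classical
  unfold cls
  exact Finset.mem_image_of_mem _ h

open scoped Classical in
theorem cmp_eq22 (hm : 0 < X.m) {θ : L} (h : minpoly k θ ∈ X.cls) :
    X.cmp hm θ = (X.cls.equivFin ⟨minpoly k θ, h⟩ : Fin X.cls.card) := dif_pos h

theorem cmp_inj22 (hm : 0 < X.m) {θ θ' : L} (h : θ ∈ X.Ω) (h' : θ' ∈ X.Ω) (e : X.cmp hm θ = X.cmp hm θ') :
    minpoly k θ = minpoly k θ' := by
  classical
  have h1 := X.mem_cls22 h
  have h2 := X.mem_cls22 h'
  have e' : X.cls.equivFin ⟨minpoly k θ, h1⟩ = X.cls.equivFin ⟨minpoly k θ', h2⟩ :=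
    (X.cmp_eq22 hm h1).symm.trans (e.trans (X.cmp_eq22 hm h2))
  exact congrArg Subtype.val (X.cls.equivFin.injective e')

theorem cmp_surj22 (hm : 0 < X.m) (j : Fin X.m) : ∃ θ ∈ X.Ω, X.cmp hm θ = j := by
  classical
  obtain ⟨⟨p, hp⟩, e⟩ := X.cls.equivFin.surjective j
  have hp' := hp
  unfold cls at hp'
  obtain ⟨θ, hθ, rfl⟩ := Finset.mem_image.1 hp'
  exact ⟨θ, hθ, (X.cmp_eq22 hm hp).trans e⟩

theorem rat_mem22 {a : k} (ha : eval a f = 0) : algebraMap k L a ∈ X.Ω := by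
  rw [mem_Ω, mem_rootSet]
  refine ⟨X.sepf.ne_zero, ?_⟩
  rw [aeval_algebraMap_apply]
  have : aeval a f = 0 := by
    rw [← ha]
    rfl
  rw [this, map_zero]

omit [NumberField k] [NumberField L] [IsGalois k L] in
theorem eq_rat22 {θ : L} {a : k} (h : minpoly k θ = minpoly k (algebraMap k L a)) : θ = algebraMap k L a := by
  rw [minpoly.eq_X_sub_C L a] at h
  have h1 : aeval θ (minpoly k θ) = 0 := minpoly.aeval k θ
  rw [h, map_sub, aeval_X, aeval_C, sub_eq_zero] at h1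
  exact h1

theorem eq_rat_of_cmp22 (hm : 0 < X.m) {a : k} (ha : eval a f = 0) {θ : L} (h : θ ∈ X.Ω)
    (e : X.cmp hm θ = X.cmp hm (algebraMap k L a)) : θ = algebraMap k L a :=
  eq_rat22 (X.cmp_inj22 hm h (X.rat_mem22 ha) e)

theorem R_sub22 {v : Pr k} {ρ : L} (h : ρ ∈ X.R v) : ρ ∈ X.Ω := by
  classical
  unfold R at h
  obtain ⟨θ, hθ, rfl⟩ := Finset.mem_image.1 h
  obtain ⟨i, hi⟩ := X.rep_eq v θ
  rw [hi]
  clear hi
  induction i with
  | zero => exact hθ
  | succ i ih =>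
    rw [Function.iterate_succ_apply']
    exact X.F_mem_Ω v ih

theorem class_card22 (hm : 0 < X.m) {θ : L} (h : θ ∈ X.Ω) :
    (minpoly k θ).natDegree ≤ (X.ΩJ5 hm {X.cmp hm θ}).card := by
  classical
  have hsep : (minpoly k θ).Separable := Algebra.IsSeparable.isSeparable k θ
  have hspl : ((minpoly k θ).map (algebraMap k L)).Splits := Normal.splits inferInstance θ
  have h1 := card_rootSet_eq_natDegree (K := L) hsep hspl
  rw [← h1, ← Set.toFinset_card]
  refine Finset.card_le_card fun ρ hρ => ?_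
  rw [Set.mem_toFinset, mem_rootSet] at hρ
  have hmin : minpoly k ρ = minpoly k θ := by
    refine (minpoly.eq_of_irreducible_of_monic (minpoly.irreducible ?_) hρ.2 (minpoly.monic ?_)).symm
    · exact Algebra.IsIntegral.isIntegral θ
    · exact Algebra.IsIntegral.isIntegral θ
  rw [mem_ΩJ5, Finset.mem_singleton]
  refine ⟨?_, X.cmp_congr5 hm hmin⟩
  rw [mem_Ω, mem_rootSet]
  refine ⟨X.sepf.ne_zero, ?_⟩
  have h2 : aeval θ f = 0 := by
    rw [mem_Ω, mem_rootSet] at h
    exact h.2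
  obtain ⟨q, hq⟩ := minpoly.dvd k θ h2
  rw [hq, map_mul, hρ.2, zero_mul]

end Ctx

/-- **BLOCK G3P**: the weights, with one rational root -/
theorem g3P : StmtG3P := by
  intro hMe hSp hDer k L _ _ _ _ _ _ f X a ha hdeg hm hfin g
  classical
  have hbig : ∀ J : Finset (Fin X.m), X.cmp hm (algebraMap k L a) ∈ J →
      J ≠ {X.cmp hm (algebraMap k L a)} → 5 ≤ (X.ΩJ5 hm J).card := by
    intro J hJ hne
    obtain ⟨j, hj, hj0⟩ : ∃ j ∈ J, j ≠ X.cmp hm (algebraMap k L a) := by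
      by_contra hcon
      push Not at hcon
      exact hne (Finset.eq_singleton_iff_unique_mem.2 ⟨hJ, hcon⟩)
    obtain ⟨θ, hθ, rfl⟩ := X.cmp_surj22 hm j
    have hθa : θ ≠ algebraMap k L a := by
      rintro rfl
      exact hj0 rfl
    have h1 := X.class_card22 hm hθ
    have h2 := hdeg θ hθ hθa
    have h3 : algebraMap k L a ∉ X.ΩJ5 hm {X.cmp hm θ} := by
      rw [Ctx.mem_ΩJ5, Finset.mem_singleton]
      rintro ⟨-, h⟩
      exact hj0 h.symm
    have h4 : insert (algebraMap k L a) (X.ΩJ5 hm {X.cmp hm θ}) ⊆ X.ΩJ5 hm J := by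
      intro ρ hρ
      rw [Ctx.mem_ΩJ5]
      rcases Finset.mem_insert.1 hρ with rfl | hρ
      · exact ⟨X.rat_mem22 ha, hJ⟩
      · rw [Ctx.mem_ΩJ5, Finset.mem_singleton] at hρ
        exact ⟨hρ.1, hρ.2 ▸ hj⟩
    have h5 := Finset.card_le_card h4
    rw [Finset.card_insert_of_notMem h3] at h5
    omega
  refine ⟨sys5 hMe k, ⟨X.Ω.card * 2, fun p => ?_⟩, ⟨?_, ?_⟩, fun J => ?_, fun J hJ hne => ?_⟩
  · change (X.Fx p ×ˢ (Finset.univ : Finset ℤˣ)).card ≤ _
    have hu : (Finset.univ : Finset ℤˣ).card = 2 := rfl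
    rw [Finset.card_product, hu]
    refine Nat.mul_le_mul_right 2 ?_
    unfold Ctx.Fx
    exact Finset.card_filter_le _ _
  · intro q o ho o' ho' h h' p i
    have h1 : o ∈ X.Fx q ×ˢ (Finset.univ : Finset ℤˣ) := ho
    have h2 : o' ∈ X.Fx q ×ˢ (Finset.univ : Finset ℤˣ) := ho'
    have h3 := (Finset.mem_product.1 h1).1
    have h4 := (Finset.mem_product.1 h2).1
    unfold Ctx.Fx at h3 h4
    rw [Finset.mem_filter] at h3 h4
    have e1 : o.1 = algebraMap k L a := X.eq_rat_of_cmp22 hm ha h3.1 h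
    have e2 : o'.1 = algebraMap k L a := X.eq_rat_of_cmp22 hm ha h4.1 h'
    have e3 : ∀ (z z' : L), z = z' → ∀ i : L,
        X.ch p (X.len p i) (aeval i (X.B q z)) = X.ch p (X.len p i) (aeval i (X.B q z')) := by
      rintro z _ rfl i
      rfl
    exact e3 o.1 o'.1 (e1.trans e2.symm) i
  · intro q o ho h
    have h1 : o ∈ X.Fx q ×ˢ (Finset.univ : Finset ℤˣ) := ho
    have h3 := (Finset.mem_product.1 h1).1
    unfold Ctx.Fx at h3
    rw [Finset.mem_filter] at h3
    have e1 : o.1 = algebraMap k L a := X.eq_rat_of_cmp22 hm ha h3.1 h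
    change ((X.R q).filter fun ρ => X.cmp hm ρ = X.cmp hm (algebraMap k L a)).erase o.1 = ∅
    rw [Finset.eq_empty_iff_forall_notMem]
    intro ρ hρ
    rw [Finset.mem_erase, Finset.mem_filter] at hρ
    refine hρ.1 ?_
    rw [e1]
    exact X.eq_rat_of_cmp22 hm ha (X.R_sub22 hρ.2.1) hρ.2.2
  · by_cases hJ : X.cmp hm (algebraMap k L a) ∈ J
    · by_cases hne : J = {X.cmp hm (algebraMap k L a)}
      · exact Or.inl hne
      · exact Or.inr (Or.inr (X.tb5 hMe hSp hm hfin g J (hbig J hJ hne)))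
    · right
      rcases Nat.lt_or_ge (X.ΩJ5 hm J).card 5 with h | h
      · refine Or.inl (X.ta5 hDer hm hfin g J (by omega) ?_)
        rintro θ hθ b rfl
        rw [Ctx.mem_ΩJ5] at hθ
        by_cases hba : algebraMap k L b = algebraMap k L a
        · exact hJ (hba ▸ hθ.2)
        · have h1 := hdeg _ hθ.1 hba
          rw [minpoly.eq_X_sub_C L b, natDegree_X_sub_C] at h1
          omega
      · exact Or.inr (X.tb5 hMe hSp hm hfin g J h)
  · exact X.tb5 hMe hSp hm hfin g J (hbig J hJ hne)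

end Pool.Agent.HG
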